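import Pool.Agent.Y290.PL.Stm

/-!
# PL-MOB: Moebius transformations of the circle
-/

set_option autoImplicit false

namespace Pool.Agent.Y495.PL

open MeasureTheory Set Pool.Agent.Y290.PL
open scoped FourierTransform ENNReal ContDiff

lemma den_pos {r : ℝ} (hr : |r| < 1) (t : ℝ) : 0 < 1 + r * Real.cos t := by
  have h1 : |r * Real.cos t| < 1 := by
    rw [abs_mul]
    calc |r| * |Real.cos t| ≤ |r| * 1 :=
          mul_le_mul_of_nonneg_left (Real.abs_cos_le_one t) (abs_nonneg _)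
      _ < 1 := by rw [mul_one]; exact hr
  have h2 := (abs_lt.1 h1).1
  linarith

lemma mob_contDiff {r : ℝ} (hr : |r| < 1) : ContDiff ℝ ∞ (mob r) := by
  unfold mob
  apply contDiff_const.mul
  apply Real.contDiff_arctan.comp
  apply ContDiff.div
  · exact contDiff_const.mul Real.contDiff_sin
  · exact contDiff_const.add (contDiff_const.mul Real.contDiff_cos)
  · intro t
    exact (den_pos hr t).ne'

lemma mob_per (r t : ℝ) : mob r (t + 2 * Real.pi) = mob r t := by
  unfold mob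
  rw [Real.sin_add_two_pi, Real.cos_add_two_pi]

lemma mob_deriv {r : ℝ} (hr : |r| < 1) (t : ℝ) :
    1 + deriv (mob r) t = (1 - r ^ 2) / (1 + 2 * r * Real.cos t + r ^ 2) := by
  have hD := den_pos hr t
  have h1 : HasDerivAt (fun t => r * Real.sin t / (1 + r * Real.cos t))
      ((r * Real.cos t * (1 + r * Real.cos t) - r * Real.sin t * (r * (-Real.sin t))) /
        (1 + r * Real.cos t) ^ 2) t := by
    apply HasDerivAt.div
    · exact (Real.hasDerivAt_sin t).const_mul r
    · exact ((Real.hasDerivAt_cos t).const_mul r).const_add 1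
    · exact hD.ne'
  have h2 : HasDerivAt (mob r) (-2 * (1 / (1 + (r * Real.sin t / (1 + r * Real.cos t)) ^ 2) *
      ((r * Real.cos t * (1 + r * Real.cos t) - r * Real.sin t * (r * (-Real.sin t))) /
        (1 + r * Real.cos t) ^ 2))) t := (h1.arctan).const_mul (-2)
  rw [h2.deriv]
  have hs : Real.sin t ^ 2 = 1 - Real.cos t ^ 2 := by
    have := Real.sin_sq_add_cos_sq t
    linarith
  have h5 : 0 < (1 + r * Real.cos t) ^ 2 + (r * Real.sin t) ^ 2 := by positivity
  have h4 : 1 + 2 * r * Real.cos t + r ^ 2 = (1 + r * Real.cos t) ^ 2 + (r * Real.sin t) ^ 2 := by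
    rw [mul_pow r (Real.sin t), hs]
    ring
  have h6 : 1 + (r * Real.sin t / (1 + r * Real.cos t)) ^ 2 =
      (1 + 2 * r * Real.cos t + r ^ 2) / (1 + r * Real.cos t) ^ 2 := by
    rw [h4]
    field_simp
  have h7 : r * Real.cos t * (1 + r * Real.cos t) - r * Real.sin t * (r * (-Real.sin t)) =
      r * Real.cos t + r ^ 2 := by
    have : r * Real.cos t * (1 + r * Real.cos t) - r * Real.sin t * (r * (-Real.sin t)) =
      r * Real.cos t + r ^ 2 * (Real.cos t ^ 2 + Real.sin t ^ 2) := by ring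
    rw [this, hs]
    ring
  rw [h6, h7]
  have h8 : (1 + 2 * r * Real.cos t + r ^ 2) ≠ 0 := by rw [h4]; exact h5.ne'
  field_simp
  ring

/-- `exp(-2 i arctan u) = (1 - i u) / (1 + i u)` -/
lemma exp_arctan (u : ℝ) : Complex.exp (((-2 * Real.arctan u : ℝ) : ℂ) * Complex.I) =
    (1 - u * Complex.I) / (1 + u * Complex.I) := by
  have hpos : (0 : ℝ) < 1 + u ^ 2 := by positivity
  have hsq : (Real.sqrt (1 + u ^ 2)) ^ 2 = 1 + u ^ 2 := Real.sq_sqrt hpos.le
  have hs0 : Real.sqrt (1 + u ^ 2) ≠ 0 := (Real.sqrt_pos.2 hpos).ne'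
  have h1 : Complex.exp (((-2 * Real.arctan u : ℝ) : ℂ) * Complex.I) =
      (Complex.exp (((- Real.arctan u : ℝ) : ℂ) * Complex.I)) ^ 2 := by
    rw [← Complex.exp_nat_mul]
    congr 1
    push_cast
    ring
  have h2 : Complex.exp (((- Real.arctan u : ℝ) : ℂ) * Complex.I) =
      (1 - u * Complex.I) / (Real.sqrt (1 + u ^ 2) : ℂ) := by
    rw [Complex.exp_mul_I, ← Complex.ofReal_cos, ← Complex.ofReal_sin, Real.cos_neg, Real.sin_neg,
      Real.cos_arctan, Real.sin_arctan]
    have h3 : (Real.sqrt (1 + u ^ 2) : ℂ) ≠ 0 := by exact_mod_cast hs0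
    push_cast
    field_simp
    ring
  have h4 : (1 + u * Complex.I : ℂ) ≠ 0 := by
    intro h
    have := congrArg Complex.re h
    simp at this
  have h5 : ((Real.sqrt (1 + u ^ 2) : ℝ) : ℂ) ^ 2 = (1 + u * Complex.I) * (1 - u * Complex.I) := by
    rw [← Complex.ofReal_pow, hsq]
    push_cast
    have : (1 + u * Complex.I) * (1 - u * Complex.I) = 1 - u ^ 2 * Complex.I ^ 2 := by ring
    rw [this, Complex.I_sq]
    ring
  have h6 : (1 - u * Complex.I : ℂ) ≠ 0 := by
    intro h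
    have := congrArg Complex.re h
    simp at this
  rw [h1, h2, div_pow, h5]
  field_simp

lemma one_add_I_ne (v : ℝ) (w : ℝ) (h : 0 < w) : ((w : ℂ) + (v : ℂ) * Complex.I) ≠ 0 := by
  intro h1
  have h2 := congrArg Complex.re h1
  rw [Complex.add_re, Complex.ofReal_re, Complex.re_ofReal_mul, Complex.I_re, mul_zero,
    add_zero, Complex.zero_re] at h2
  exact h.ne' h2

lemma alg (r x y : ℝ) (hD : 0 < 1 + r * x) (hxy : y ^ 2 = 1 - x ^ 2) :
    ((x : ℂ) + (y : ℂ) * Complex.I) * ((1 - ((r * y / (1 + r * x) : ℝ) : ℂ) * Complex.I) /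
      (1 + ((r * y / (1 + r * x) : ℝ) : ℂ) * Complex.I)) =
    (((x : ℂ) + (y : ℂ) * Complex.I) + r) / (1 + r * ((x : ℂ) + (y : ℂ) * Complex.I)) := by
  have h3 : (1 + r * ((x : ℂ) + (y : ℂ) * Complex.I) : ℂ) ≠ 0 := by
    have := one_add_I_ne (r * y) (1 + r * x) hD
    intro h
    apply this
    rw [← h]
    push_cast
    ring
  have h5 : (1 + ((r * y / (1 + r * x) : ℝ) : ℂ) * Complex.I : ℂ) ≠ 0 := by
    have := one_add_I_ne (r * y / (1 + r * x)) 1 one_pos
    rwa [Complex.ofReal_one] at this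
  have hDc : ((1 : ℂ) + r * (x : ℂ)) ≠ 0 := by
    have : ((1 + r * x : ℝ) : ℂ) ≠ 0 := by exact_mod_cast hD.ne'
    rw [Complex.ofReal_add, Complex.ofReal_mul, Complex.ofReal_one] at this
    exact this
  have hsc : (y : ℂ) ^ 2 = 1 - (x : ℂ) ^ 2 := by
    exact_mod_cast congrArg (fun x : ℝ => (x : ℂ)) hxy
  have h6 : (1 - ((r * y / (1 + r * x) : ℝ) : ℂ) * Complex.I) /
      (1 + ((r * y / (1 + r * x) : ℝ) : ℂ) * Complex.I) =
      (1 + r * x - r * y * Complex.I) / (1 + r * ((x : ℂ) + (y : ℂ) * Complex.I)) := by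
    rw [div_eq_div_iff h5 h3]
    push_cast
    field_simp
    ring
  rw [h6, ← mul_div_assoc]
  congr 1
  have hI : Complex.I ^ 2 = -1 := Complex.I_sq
  calc ((x : ℂ) + (y : ℂ) * Complex.I) * (1 + r * x - r * y * Complex.I)
      = x + r * x ^ 2 + y * Complex.I - r * y ^ 2 * Complex.I ^ 2 := by ring
    _ = _ := by rw [hI, hsc]; ring

lemma mob_ej {r : ℝ} (hr : |r| < 1) (t : ℝ) :
    ej 1 (t + mob r t) = (ej 1 t + r) / (1 + r * ej 1 t) := by
  have hD := den_pos hr t
  have h1 : ej 1 (t + mob r t) = ej 1 t *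
      Complex.exp (((-2 * Real.arctan (r * Real.sin t / (1 + r * Real.cos t)) : ℝ) : ℂ) *
        Complex.I) := by
    unfold ej mob
    rw [← Complex.exp_add]
    congr 1
    push_cast
    ring
  have h2 : ej 1 t = (Real.cos t : ℂ) + (Real.sin t : ℂ) * Complex.I := by
    unfold ej
    have : (((1 : ℤ) : ℝ) * t : ℝ) = t := by push_cast; ring
    rw [this, Complex.exp_mul_I, ← Complex.ofReal_cos, ← Complex.ofReal_sin]
  have hs : Real.sin t ^ 2 = 1 - Real.cos t ^ 2 := by
    have := Real.sin_sq_add_cos_sq t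
    linarith
  rw [h1, exp_arctan, h2]
  exact alg r (Real.cos t) (Real.sin t) hD hs

lemma mob_bd (r t : ℝ) : |mob r t| < Real.pi := by
  unfold mob
  have h1 := Real.arctan_lt_pi_div_two (r * Real.sin t / (1 + r * Real.cos t))
  have h2 := Real.neg_pi_div_two_lt_arctan (r * Real.sin t / (1 + r * Real.cos t))
  rw [abs_lt]
  constructor <;> linarith

lemma norm_ej (t : ℝ) : ‖ej 1 t‖ = 1 := by
  unfold ej
  exact Complex.norm_exp_ofReal_mul_I _

lemma mob_inv {r : ℝ} (hr : |r| < 1) (t : ℝ) : (t + mob r t) + mob (-r) (t + mob r t) = t := by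
  have hr' : |-r| < 1 := by rw [abs_neg]; exact hr
  have h1 := mob_ej hr' (t + mob r t)
  have h2 := mob_ej hr t
  have h3 : (1 + r * ej 1 t : ℂ) ≠ 0 := by
    intro h
    have h4 : (r : ℂ) * ej 1 t = -1 := by linear_combination h
    have h5 := congrArg norm h4
    rw [norm_mul, norm_ej, norm_neg, norm_one, mul_one, Complex.norm_real, Real.norm_eq_abs] at h5
    exact hr.ne h5
  have h3' : (1 + ej 1 t * r : ℂ) ≠ 0 := by rw [mul_comm (ej 1 t)]; exact h3
  have hr2 : (1 - (r : ℂ) ^ 2) ≠ 0 := by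
    have h4 : r ^ 2 < 1 := (sq_lt_one_iff_abs_lt_one r).2 hr
    have h5 : ((1 - r ^ 2 : ℝ) : ℂ) ≠ 0 := by
      have : 1 - r ^ 2 ≠ 0 := by linarith
      exact_mod_cast this
    push_cast at h5
    exact h5
  have h4 : ej 1 ((t + mob r t) + mob (-r) (t + mob r t)) = ej 1 t := by
    rw [h1, h2]
    push_cast
    have h5 : (ej 1 t + r) / (1 + r * ej 1 t) + -(r : ℂ) =
        ej 1 t * (1 - (r : ℂ) ^ 2) / (1 + r * ej 1 t) := by
      field_simp
      ring
    have h6 : 1 + -(r : ℂ) * ((ej 1 t + r) / (1 + r * ej 1 t)) =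
        (1 - (r : ℂ) ^ 2) / (1 + r * ej 1 t) := by
      field_simp
      ring
    rw [h5, h6]
    field_simp
  have h7 : Complex.exp (((mob r t + mob (-r) (t + mob r t) : ℝ) : ℂ) * Complex.I) = 1 := by
    have h8 : ej 1 ((t + mob r t) + mob (-r) (t + mob r t)) =
        ej 1 t * Complex.exp (((mob r t + mob (-r) (t + mob r t) : ℝ) : ℂ) * Complex.I) := by
      unfold ej
      rw [← Complex.exp_add]
      congr 1
      push_cast
      ring
    have h9 : ej 1 t ≠ 0 := Complex.exp_ne_zero _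
    rw [h8] at h4
    exact mul_left_cancel₀ h9 (by rw [h4, mul_one])
  rw [Complex.exp_eq_one_iff] at h7
  obtain ⟨n, hn⟩ := h7
  have h10 : mob r t + mob (-r) (t + mob r t) = n * (2 * Real.pi) := by
    have h11 : ((mob r t + mob (-r) (t + mob r t) : ℝ) : ℂ) = ((n * (2 * Real.pi) : ℝ) : ℂ) := by
      apply mul_right_cancel₀ Complex.I_ne_zero
      rw [hn]
      push_cast
      ring
    exact_mod_cast h11
  have h12 : |mob r t + mob (-r) (t + mob r t)| < 2 * Real.pi := by
    calc |mob r t + mob (-r) (t + mob r t)| ≤ |mob r t| + |mob (-r) (t + mob r t)| :=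
          abs_add_le _ _
      _ < Real.pi + Real.pi := add_lt_add (mob_bd _ _) (mob_bd _ _)
      _ = 2 * Real.pi := by ring
  have hπ := Real.pi_pos
  have h13 : n = 0 := by
    rw [h10, abs_mul, abs_of_pos (by positivity : 0 < 2 * Real.pi)] at h12
    have h14 : |(n : ℝ)| < 1 := by
      by_contra h
      rw [not_lt] at h
      nlinarith
    have h15 : |n| < 1 := by exact_mod_cast h14
    exact Int.abs_lt_one_iff.1 h15
  rw [h13] at h10
  push_cast at h10
  linarith

theorem t_MOB : S_MOB := by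
  intro r hr
  exact ⟨mob_contDiff hr, mob_per r, mob_deriv hr, mob_ej hr, mob_inv hr⟩

end Pool.Agent.Y495.PL
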