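import Pool.Agent.Y290.PL.Stm

/-!
# PL-NUM: the numbers
-/

set_option autoImplicit false

namespace Pool.Agent.Y495.PL

open MeasureTheory Set Pool.Agent.Y290.PL
open scoped FourierTransform ENNReal ContDiff

/-- the parameter -/
noncomputable def rr : ℝ := 9999 / 10000

/-- the cutoff `m` -/
noncomputable def mf (t : ℝ) : ℝ := Real.smoothTransition (4000 * (1 + Real.cos t) - 2)

/-- the cutoff `κ` -/
noncomputable def kf (t : ℝ) : ℝ := Real.smoothTransition (4000 * (1 + Real.cos t) - 1)

lemma mf_s : ContDiff ℝ ∞ mf := by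
  unfold mf
  exact Real.smoothTransition.contDiff.comp
    ((contDiff_const.mul (contDiff_const.add Real.contDiff_cos)).sub contDiff_const)

lemma kf_s : ContDiff ℝ ∞ kf := by
  unfold kf
  exact Real.smoothTransition.contDiff.comp
    ((contDiff_const.mul (contDiff_const.add Real.contDiff_cos)).sub contDiff_const)

/-- the denominator -/
noncomputable def DD (t : ℝ) : ℝ := 1 + 2 * rr * Real.cos t + rr ^ 2

lemma DD_eq (t : ℝ) : DD t = (1 - rr) ^ 2 + 2 * rr * (1 + Real.cos t) := by
  unfold DD; ring

lemma DD_pos (t : ℝ) : 0 < DD t := by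
  rw [DD_eq]
  have h1 : 0 ≤ 1 + Real.cos t := by have := Real.neg_one_le_cos t; linarith
  unfold rr
  have h2 : (0 : ℝ) ≤ 2 * (9999 / 10000) * (1 + Real.cos t) := by positivity
  have h3 : (0 : ℝ) < (1 - 9999 / 10000) ^ 2 := by norm_num
  linarith

lemma DD_cont : Continuous DD := by
  unfold DD
  fun_prop

/-- the integrand of the first inequality -/
noncomputable def ff (t : ℝ) : ℝ := mf t / Real.sqrt (DD t)

lemma ff_cont : Continuous ff := by
  unfold ff
  exact mf_s.continuous.div (Real.continuous_sqrt.comp DD_cont)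
    (fun t => (Real.sqrt_pos.2 (DD_pos t)).ne')

lemma ff_nonneg (t : ℝ) : 0 ≤ ff t :=
  div_nonneg (Real.smoothTransition.nonneg _) (Real.sqrt_nonneg _)

/-- lower bound for the integrand, `s` is the distance from `π` -/
lemma ff_low (t s : ℝ) (hs1 : 1 / 20 ≤ s) (hs2 : s ≤ Real.pi) (hts : Real.cos t = - Real.cos s) :
    1 / (1 / 10000 + s) ≤ ff t := by
  have hcos1 : Real.cos s ≤ Real.cos (1 / 20) :=
    Real.cos_le_cos_of_nonneg_of_le_pi (by norm_num) hs2 hs1
  have hcos2 : Real.cos (1 / 20 : ℝ) ≤ 1 - 3 / 4000 := by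
    have h1 := Real.cos_bound (x := 1 / 20) (by rw [abs_of_pos (by norm_num)]; norm_num)
    have h2 := (abs_le.1 h1).2
    rw [abs_of_pos (by norm_num : (0 : ℝ) < 1 / 20)] at h2
    norm_num at h2 ⊢
    linarith
  have hm : mf t = 1 := by
    unfold mf
    apply Real.smoothTransition.one_of_one_le
    rw [hts]
    linarith
  unfold ff
  rw [hm]
  apply one_div_le_one_div_of_le (Real.sqrt_pos.2 (DD_pos t))
  have hs0 : 0 ≤ s := by linarith
  rw [Real.sqrt_le_left (by positivity)]
  rw [DD_eq, hts]
  have h3 := Real.one_sub_sq_div_two_le_cos (x := s)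
  have h4 : 2 * rr * (1 + -Real.cos s) ≤ s ^ 2 := by
    unfold rr
    nlinarith [sq_nonneg s]
  have h5 : (1 - rr) ^ 2 = (1 / 10000) ^ 2 := by unfold rr; norm_num
  rw [h5]
  nlinarith

lemma log_low : 4 < Real.log ((1 / 10000 + Real.pi) / (1 / 10000 + 1 / 20)) := by
  rw [Real.lt_log_iff_exp_lt (by have := Real.pi_pos; positivity)]
  have h1 : Real.exp 4 = (Real.exp 1) ^ 4 := by
    rw [← Real.exp_nat_mul]; norm_num
  have h2 : (Real.exp 1) ^ 4 < 2.7182818286 ^ 4 :=
    pow_lt_pow_left₀ Real.exp_one_lt_d9 (Real.exp_pos _).le (by norm_num)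
  rw [h1]
  refine h2.trans ?_
  have h3 := Real.pi_gt_d2
  rw [lt_div_iff₀ (by norm_num)]
  norm_num at h3 ⊢
  linarith

lemma inv_int : IntervalIntegrable (fun t => 1 / (1 / 10000 + (Real.pi - t))) volume
    (0 : ℝ) (Real.pi - 1 / 20) := by
  have hπ := Real.pi_gt_three
  apply ContinuousOn.intervalIntegrable
  rw [uIcc_of_le (by linarith)]
  apply ContinuousOn.div continuousOn_const
  · exact (continuous_const.add (continuous_const.sub continuous_id)).continuousOn
  · intro t ht
    have := ht.2
    have : 0 < 1 / 10000 + (Real.pi - t) := by linarith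
    exact this.ne'

lemma int1 : 4 < ∫ t in (0 : ℝ)..(Real.pi - 1 / 20), ff t := by
  have hπ := Real.pi_gt_three
  have h1 : ∫ t in (0 : ℝ)..(Real.pi - 1 / 20), 1 / (1 / 10000 + (Real.pi - t)) =
      Real.log ((1 / 10000 + Real.pi) / (1 / 10000 + 1 / 20)) := by
    have h2 : ∀ t ∈ uIcc (0 : ℝ) (Real.pi - 1 / 20),
        HasDerivAt (fun t => - Real.log (1 / 10000 + (Real.pi - t)))
          (1 / (1 / 10000 + (Real.pi - t))) t := by
      intro t ht
      rw [uIcc_of_le (by linarith)] at ht
      have h3 : (1 / 10000 + (Real.pi - t)) ≠ 0 := by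
        have := ht.2
        have : 0 < 1 / 10000 + (Real.pi - t) := by linarith
        exact this.ne'
      have h4 : HasDerivAt (fun t => 1 / 10000 + (Real.pi - t)) (-1) t :=
        ((hasDerivAt_id t).const_sub Real.pi).const_add _
      have h5 := (h4.log h3).neg
      have h6 : -(-1 / (1 / 10000 + (Real.pi - t))) = 1 / (1 / 10000 + (Real.pi - t)) := by ring
      rw [h6] at h5
      exact h5
    rw [intervalIntegral.integral_eq_sub_of_hasDerivAt h2]
    · rw [Real.log_div (by positivity) (by norm_num)]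
      have h6 : Real.pi - (Real.pi - 1 / 20) = 1 / 20 := by ring
      rw [h6, sub_zero]
      ring
    · exact inv_int
  refine (log_low.trans_eq h1.symm).trans_le ?_
  apply intervalIntegral.integral_mono_on (by linarith)
  · exact inv_int
  · exact ff_cont.intervalIntegrable _ _
  · intro t ht
    apply ff_low
    · have := ht.2; linarith
    · have := ht.1; linarith
    · rw [Real.cos_pi_sub, neg_neg]

lemma ff_symm (t : ℝ) : ff (2 * Real.pi - t) = ff t := by
  unfold ff mf DD
  rw [Real.cos_two_pi_sub]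

lemma int2 : 4 < ∫ t in (Real.pi + 1 / 20)..(2 * Real.pi), ff t := by
  have h1 : ∫ t in (Real.pi + 1 / 20)..(2 * Real.pi), ff (2 * Real.pi - t) =
      ∫ t in (2 * Real.pi - 2 * Real.pi)..(2 * Real.pi - (Real.pi + 1 / 20)), ff t :=
    intervalIntegral.integral_comp_sub_left ff (2 * Real.pi)
  simp_rw [ff_symm] at h1
  rw [h1]
  have h2 : 2 * Real.pi - 2 * Real.pi = 0 := by ring
  have h3 : 2 * Real.pi - (Real.pi + 1 / 20) = Real.pi - 1 / 20 := by ring
  rw [h2, h3]
  exact int1

lemma num1 : 2 * Real.pi < ∫ t in (0 : ℝ)..2 * Real.pi, ff t := by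
  have h1 : ∫ t in (0 : ℝ)..2 * Real.pi, ff t =
      (∫ t in (0 : ℝ)..(Real.pi - 1 / 20), ff t) +
      (∫ t in (Real.pi - 1 / 20)..(Real.pi + 1 / 20), ff t) +
      ∫ t in (Real.pi + 1 / 20)..(2 * Real.pi), ff t := by
    rw [intervalIntegral.integral_add_adjacent_intervals (ff_cont.intervalIntegrable _ _)
      (ff_cont.intervalIntegrable _ _), intervalIntegral.integral_add_adjacent_intervals
      (ff_cont.intervalIntegrable _ _) (ff_cont.intervalIntegrable _ _)]
  have h2 : 0 ≤ ∫ t in (Real.pi - 1 / 20)..(Real.pi + 1 / 20), ff t :=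
    intervalIntegral.integral_nonneg (by linarith) (fun t _ => ff_nonneg t)
  have h3 := int1
  have h4 := int2
  have h5 := Real.pi_lt_d2
  rw [h1]
  norm_num at h5
  linarith

lemma kf_pi : kf Real.pi = 0 := by
  unfold kf
  apply Real.smoothTransition.zero_of_nonpos
  rw [Real.cos_pi]
  norm_num

lemma num2 : ∫ t in (0 : ℝ)..2 * Real.pi, kf t < 2 * Real.pi := by
  have hπ := Real.pi_pos
  have h1 : ∫ t in (0 : ℝ)..2 * Real.pi, kf t < ∫ t in (0 : ℝ)..2 * Real.pi, (1 : ℝ) := by
    apply intervalIntegral.integral_lt_integral_of_continuousOn_of_le_of_exists_lt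
    · linarith
    · exact kf_s.continuous.continuousOn
    · exact continuousOn_const
    · intro t _
      exact Real.smoothTransition.le_one _
    · refine ⟨Real.pi, ⟨hπ.le, by linarith⟩, ?_⟩
      rw [kf_pi]
      exact one_pos
  rw [intervalIntegral.integral_const, smul_eq_mul, mul_one, sub_zero] at h1
  exact h1

lemma num3 : ∫ t in (0 : ℝ)..2 * Real.pi, kf t * ((1 - rr ^ 2) / DD t) ^ 2 < 2 * Real.pi := by
  have hπ := Real.pi_pos
  have h1 : ∫ t in (0 : ℝ)..2 * Real.pi, kf t * ((1 - rr ^ 2) / DD t) ^ 2 <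
      ∫ t in (0 : ℝ)..2 * Real.pi, (1 : ℝ) := by
    apply intervalIntegral.integral_lt_integral_of_continuousOn_of_le_of_exists_lt
    · linarith
    · apply Continuous.continuousOn
      exact kf_s.continuous.mul ((continuous_const.div DD_cont (fun t => (DD_pos t).ne')).pow 2)
    · exact continuousOn_const
    · intro t _
      by_cases hk : kf t = 0
      · rw [hk, zero_mul]
        exact zero_le_one
      · have h2 : 1 / 4000 < 1 + Real.cos t := by
          by_contra h
          rw [not_lt] at h
          apply hk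
          unfold kf
          apply Real.smoothTransition.zero_of_nonpos
          linarith
        have h3 : (1 - rr ^ 2) / DD t ≤ 1 := by
          rw [div_le_one (DD_pos t), DD_eq]
          unfold rr
          nlinarith
        have h4 : 0 ≤ (1 - rr ^ 2) / DD t := by
          apply div_nonneg _ (DD_pos t).le
          unfold rr
          norm_num
        have h5 : ((1 - rr ^ 2) / DD t) ^ 2 ≤ 1 := pow_le_one₀ h4 h3
        have h6 : kf t ≤ 1 := Real.smoothTransition.le_one _
        have h7 : 0 ≤ kf t := Real.smoothTransition.nonneg _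
        calc kf t * ((1 - rr ^ 2) / DD t) ^ 2 ≤ 1 * 1 :=
              mul_le_mul h6 h5 (sq_nonneg _) zero_le_one
          _ = 1 := one_mul 1
    · refine ⟨Real.pi, ⟨hπ.le, by linarith⟩, ?_⟩
      rw [kf_pi, zero_mul]
      exact one_pos
  rw [intervalIntegral.integral_const, smul_eq_mul, mul_one, sub_zero] at h1
  exact h1

theorem t_NUM : S_NUM := by
  refine ⟨rr, mf, kf, by unfold rr; norm_num, by unfold rr; norm_num, mf_s, kf_s, ?_, ?_,
    fun t => Real.smoothTransition.nonneg _, fun t => Real.smoothTransition.le_one _,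
    fun t => Real.smoothTransition.nonneg _, fun t => Real.smoothTransition.le_one _, ?_,
    num1, num2, num3⟩
  · intro t
    unfold mf
    rw [Real.cos_add_two_pi]
  · intro t
    unfold kf
    rw [Real.cos_add_two_pi]
  · intro t ht
    have h1 : 2 < 4000 * (1 + Real.cos t) := by
      by_contra h
      rw [not_lt] at h
      apply ht
      unfold mf
      apply Real.smoothTransition.zero_of_nonpos
      linarith
    unfold kf
    apply Real.smoothTransition.one_of_one_le
    linarith

end Pool.Agent.Y495.PL
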